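import Pool.Agent.Helper86.HU.EX

/-! # HK module EXG: the cofinality in HOD of a limit ordinal -/

namespace Pool.Agent.Helper76.HK

open Ordinal Cardinal ZFSet Order Pool.Agent.Helper73.HODC Pool.Agent.Helper73.HE
  Pool.Agent.Helper73.HM Pool.Agent.Helper73.HU Pool.Agent.Helper86.HU.EX

/-- a limit ordinal `a` has a cofinal subset in HOD whose order type is a regular cardinal of HOD
of the same cofinality as `a` -/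
theorem exg (a : Ordinal.{0}) (ha : IsSuccLimit a) :
    ∃ γ, γ ≤ a ∧ HODReg γ ∧ a.cof = γ.cof ∧ ∀ τ τ' : Ordinal.{0}, a < τ' → γ < τ →
      ∃ x, OD x ∧ x ⊆ τ'.toZFSet ∧ SmallCof τ a x := by
  have ha0 : 0 < a := pos_iff_ne_zero.2 (Ordinal.isSuccLimit_iff.1 ha).1
  let Γ : Set Ordinal.{0} := {γ | ∃ f : Ordinal.{0} → Ordinal.{0}, HOD (graph γ f) ∧
    (∀ ξ < γ, f ξ < a) ∧ ∀ β < a, ∃ ξ < γ, β ≤ f ξ}
  have haΓ : a ∈ Γ := ⟨id, hod_of_dp ((DP.rank_lt_ord 0 a).and (DP.rank_eq 0 1)),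
    fun ξ hξ => hξ, fun β hβ => ⟨β, hβ, le_rfl⟩⟩
  obtain ⟨f, hf, hfa, hfc⟩ := csInf_mem (s := Γ) ⟨a, haΓ⟩
  have hmin : ∀ ζ < sInf Γ, ζ ∉ Γ := fun ζ hζ h => absurd (csInf_le' h) (not_le.2 hζ)
  have hγa : sInf Γ ≤ a := csInf_le' haΓ
  generalize sInf Γ = γ at hf hfa hfc hmin hγa
  have hdf := dpf hf
  have hbd : ∀ ζ < γ, ∃ s < a, ∀ ξ < ζ, f ξ < s := by
    intro ζ hζ
    by_contra hcon
    push Not at hcon
    refine hmin ζ hζ ⟨f, hod_of_dp ?_, fun ξ hξ => hfa ξ (hξ.trans hζ), fun β hβ => ?_⟩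
    · exact ((DP.rank_lt_ord 0 ζ).and (hdf 0 1)).congr fun v =>
        ⟨fun h => ⟨h.1, h.1.trans hζ, h.2⟩, fun h => ⟨h.1, h.2.2⟩⟩
    · obtain ⟨ξ, h1, h2⟩ := hcon β hβ
      exact ⟨ξ, h1, h2⟩
  have hγ0 : γ ≠ 0 := by
    intro h0
    obtain ⟨ξ, hξ, -⟩ := hfc 0 ha0
    rw [h0] at hξ
    exact not_lt_zero hξ
  have hγl : IsSuccLimit γ := by
    rw [Ordinal.isSuccLimit_iff, isSuccPrelimit_iff_succ_lt]
    refine ⟨hγ0, fun ζ hζ => ?_⟩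
    by_contra hcon
    have he : γ = succ ζ := le_antisymm (not_lt.1 hcon) (succ_le_of_lt hζ)
    obtain ⟨s, hs, hs'⟩ := hbd ζ hζ
    obtain ⟨ξ, hξ, h1⟩ := hfc (succ (max s (f ζ))) (ha.succ_lt (max_lt hs (hfa ζ hζ)))
    rw [he] at hξ
    rcases lt_or_eq_of_le (lt_succ_iff.1 hξ) with h2 | h2
    · have h3 := (succ_le_iff.1 h1).trans (hs' ξ h2)
      exact absurd (le_max_left s (f ζ)) (not_le.2 h3)
    · rw [h2] at h1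
      exact absurd (le_max_right s (f ζ)) (not_le.2 (succ_le_iff.1 h1))
  -- the nondecreasing function
  let SS : Ordinal.{0} → Set Ordinal.{0} := fun ξ => {s | ∀ ξ', ξ' ≤ ξ → ξ' < γ → f ξ' ≤ s}
  let F : Ordinal.{0} → Ordinal.{0} := fun ξ => sInf (SS ξ)
  have hSa : ∀ ξ < γ, ∃ s < a, s ∈ SS ξ := by
    intro ξ hξ
    obtain ⟨s, hs, hs'⟩ := hbd (succ ξ) (hγl.succ_lt hξ)
    exact ⟨s, hs, fun ξ' h1 _ => (hs' ξ' (lt_succ_iff.2 h1)).le⟩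
  have hFa : ∀ ξ < γ, F ξ < a := by
    intro ξ hξ
    obtain ⟨s, hs, hs'⟩ := hSa ξ hξ
    exact (csInf_le' hs').trans_lt hs
  have hFm : ∀ ξ < γ, F ξ ∈ SS ξ := by
    intro ξ hξ
    obtain ⟨s, hs, hs'⟩ := hSa ξ hξ
    exact csInf_mem ⟨s, hs'⟩
  have hfF : ∀ ξ < γ, f ξ ≤ F ξ := fun ξ hξ => hFm ξ hξ ξ le_rfl hξ
  have hmono : ∀ ξ η, ξ ≤ η → η < γ → F ξ ≤ F η := by
    intro ξ η h1 h2
    exact csInf_le' (fun ξ' h3 h4 => hFm η h2 ξ' (h3.trans h1) h4)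
  have hFc : ∀ β < a, ∃ ξ < γ, β ≤ F ξ := by
    intro β hβ
    obtain ⟨ξ, h1, h2⟩ := hfc β hβ
    exact ⟨ξ, h1, h2.trans (hfF ξ h1)⟩
  have hFb : ∀ ζ < γ, ∃ β < a, ∀ ξ < ζ, F ξ < β := by
    intro ζ hζ
    refine ⟨succ (F ζ), ha.succ_lt (hFa ζ hζ), fun ξ hξ => ?_⟩
    exact lt_succ_iff.2 (hmono ξ ζ hξ.le hζ)
  have hdS : DP (fun v => (v 1).rank ∈ SS (v 0).rank) := by
    refine DP.allO (Q := fun x v => x ≤ (v 0).rank → x < γ → f x ≤ (v 1).rank) ?_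
    refine (DP.rank_le 0 1).imp ?_
    have h1 : DP (fun v => ∃ z : Ordinal.{0}, ((v 0).rank < γ ∧ f (v 0).rank = z) ∧
        z ≤ (v 2).rank) := by
      refine DP.exO (Q := fun z v => ((v 0).rank < γ ∧ f (v 0).rank = z) ∧ z ≤ (v 2).rank) ?_
      exact (hdf 1 0).and (DP.rank_le 0 3)
    refine ((DP.rank_lt_ord 0 γ).imp h1).congr fun v => ?_
    constructor
    · intro h hx
      exact ⟨_, ⟨hx, rfl⟩, h hx⟩
    · intro h hx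
      obtain ⟨z, ⟨-, rfl⟩, h2⟩ := h hx
      exact h2
  have hF : HOD (graph γ F) := hod_of_dp ((DP.rank_lt_ord 0 γ).and (dp_sInf hdS 0 1))
  have hdF := dpf hF
  -- `γ` is regular in HOD
  have hreg : HODReg γ := by
    refine ⟨hγl, ?_⟩
    rintro ⟨-, ρ, hρ, k, hk, hkc, hkH⟩
    refine hmin ρ hρ ⟨fun x => F (k x), hod_of_dp ?_, fun ξ hξ => hFa _ (hk ξ hξ),
      fun β hβ => ?_⟩
    · have h1 : DP (fun v => ∃ z : Ordinal.{0}, ((v 0).rank < ρ ∧ k (v 0).rank = z) ∧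
          (z < γ ∧ F z = (v 1).rank)) := by
        refine DP.exO (Q := fun z v => ((v 0).rank < ρ ∧ k (v 0).rank = z) ∧
          (z < γ ∧ F z = (v 1).rank)) ?_
        exact (dpf hkH 1 0).and (hdF 0 2)
      refine h1.congr fun v => ?_
      constructor
      · rintro ⟨h2, h3⟩
        exact ⟨_, ⟨h2, rfl⟩, hk _ h2, h3⟩
      · rintro ⟨z, ⟨h2, rfl⟩, -, h3⟩
        exact ⟨h2, h3⟩
    · obtain ⟨ξ, h1, h2⟩ := hFc β hβ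
      obtain ⟨η, h3, h4⟩ := hkc ξ h1
      exact ⟨η, h3, h2.trans (hmono ξ (k η) h4 (hk η h3))⟩
  -- the range of `F`
  have hdR : DPs {b | ∃ ξ, ξ < γ ∧ F ξ = b} :=
    DP.exO (Q := fun ξ v => ξ < γ ∧ F ξ = (v 0).rank) (hdF 0 1)
  refine ⟨γ, hγa, hreg, cof_eq_of_map hFa hmono hFc hFb, fun τ τ' haτ hγτ => ?_⟩
  refine ⟨ordSet τ' {b | ∃ ξ, ξ < γ ∧ F ξ = b}, od_ordSet hdR τ', ordSet_sub _ _, ?_, ?_, ?_⟩
  · intro b hb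
    obtain ⟨-, ξ, hξ, rfl⟩ := mem_st_ordSet.1 hb
    exact hFa ξ hξ
  · intro β hβ
    obtain ⟨ξ, h1, h2⟩ := hFc (succ β) (ha.succ_lt hβ)
    exact ⟨F ξ, mem_st_ordSet.2 ⟨(hFa ξ h1).trans haτ, ξ, h1, rfl⟩, succ_le_iff.1 h2, hFa ξ h1⟩
  · refine ⟨γ, hγτ, fun b => sInf {ξ | ξ < γ ∧ F ξ = b}, ?_, ?_⟩
    · intro b hb
      obtain ⟨-, ξ, h1, h2⟩ := mem_st_ordSet.1 hb
      exact (csInf_mem (s := {ξ | ξ < γ ∧ F ξ = b}) ⟨ξ, h1, h2⟩).1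
    · intro b hb b' hb' hbb
      obtain ⟨-, ξ, h1, h2⟩ := mem_st_ordSet.1 hb
      obtain ⟨-, ξ', h1', h2'⟩ := mem_st_ordSet.1 hb'
      obtain ⟨h3, h4⟩ := csInf_mem (s := {ξ | ξ < γ ∧ F ξ = b}) ⟨ξ, h1, h2⟩
      obtain ⟨h3', h4'⟩ := csInf_mem (s := {ξ | ξ < γ ∧ F ξ = b'}) ⟨ξ', h1', h2'⟩
      by_contra hcon
      have h5 := hmono _ _ (not_lt.1 hcon) h3
      rw [h4, h4'] at h5
      exact absurd h5 (not_le.2 hbb)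

end Pool.Agent.Helper76.HK
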