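import Pool.Agent.Helper76.HK.EXG
import Pool.Agent.Helper73.HU.CVO
import Pool.Agent.Helper73.HU.Fin

/-! # HK: the cofinality of the successor cardinals of HOD -/

namespace Pool.Agent.Helper76.HK

open Ordinal Cardinal ZFSet Order Pool.Agent.Helper73.HODC Pool.Agent.Helper73.HE
  Pool.Agent.Helper73.HM Pool.Agent.Helper73.HU

theorem bnd (hME : StME) {γ δ : Ordinal.{0}} {A : Set Ordinal.{0}}
    {C : Ordinal.{0} → Ordinal.{0} → Prop} (hunc : ℵ₀ < δ.cof) (hγ : HODReg γ) (hδ : HODReg δ)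
    (hγδ : γ < δ) (hA : DPs A) (hA' : ∀ a ∈ A, a < δ) (hAt : Atom δ A)
    (hC : DP (fun v => C (v 0).rank (v 1).rank))
    (hC1 : ∀ a ∈ A, ∀ β < a, ∃ b, C a b ∧ β ≤ b ∧ b < a)
    (hC2 : ∀ a ∈ A, OtpLt {b | C a b} γ) : δ.cof ≤ γ.cof := by
  obtain ⟨φ, -, hφ1, hφ2⟩ := hME γ δ A C hunc hγ hδ hγδ hA hA' hAt hC hC1 hC2
  by_contra hcon
  push Not at hcon
  obtain ⟨ι, z, hι, hz, hz'⟩ := cv_cofinal γ
  have h1 : ∀ i, ∃ D, Club D δ ∧ ∀ a ∈ D, a < δ → a ∈ A → z i ≤ φ a := by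
    intro i
    have h2 := hφ2 (z i) (hz i)
    unfold Stat at h2
    push Not at h2
    obtain ⟨D, hD, h3⟩ := h2
    refine ⟨D, hD, fun a haD haδ haA => ?_⟩
    by_contra h4
    exact absurd haδ (not_lt.2 (h3 a ⟨haA, not_le.1 h4⟩ haD))
  choose D hD using h1
  have hclub : Club (⋂ i, D i) δ := Club.iInter' hunc (by rw [hι]; exact hcon) fun i => (hD i).1
  obtain ⟨a, haA, haD, haδ⟩ := hAt.1 _ hclub
  obtain ⟨i, hi⟩ := hz' (succ (φ a)) (hγ.1.succ_lt (hφ1 a haA))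
  have h5 := (hD i).2 a (Set.mem_iInter.1 haD i) haδ haA
  exact absurd (hi.trans h5) (not_le.2 (lt_succ _))

/-- the ordinals `a` of cofinality less than `κ` with a cofinal subset in HOD of order type less
than `γ` -/
def XX (κ : Cardinal.{0}) (δ γ : Ordinal.{0}) : Set Ordinal.{0} :=
  {a | a.cof < κ ∧ ∃ b, ∃ x, LeastOD δ (SmallCof γ a) x ∧ b ∈ st x}

theorem dps_XX (hSD : StSD) (hCF : StCF) (κ : Cardinal.{0}) (δ γ : Ordinal.{0}) :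
    DPs (XX κ δ γ) := by
  refine (hCF κ 0).and ?_
  refine DP.exO (Q := fun b v => ∃ x, LeastOD δ (SmallCof γ (v 0).rank) x ∧ b ∈ st x) ?_
  exact (hSD γ δ).rename (fun n => if n = 0 then 1 else 0)

theorem mem_XX (hLE : StLE) {κ : Cardinal.{0}} {δ γ a : Ordinal.{0}} (h : a.cof < κ)
    (ha : 0 < a) (hx : ∃ x, OD x ∧ x ⊆ δ.toZFSet ∧ SmallCof γ a x) : a ∈ XX κ δ γ := by
  obtain ⟨x, hx⟩ := hLE.2 δ _ hx
  obtain ⟨b, hb, -, -⟩ := hx.1.2.2.2.1 0 ha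
  exact ⟨h, b, x, hx, hb⟩

theorem key (hCV : StCVO) (hNA : StNAO) (hSD : StSD) (hME : StME) (hLE : StLE) (hCF : StCF)
    {κ κ₀ : Cardinal.{0}} (hκ : StronglyCompact κ) (hkk : κ ≤ κ₀)
    (hα : ∃ α : Ordinal.{0}, IsSuccLimit α ∧ κ.ord ≤ α ∧ α ≤ κ₀.ord ∧ α.cof < κ ∧ ¬ HODSing α)
    {γ δ : Ordinal.{0}} (hγ : HODReg γ) (hδ : HODReg δ) (hγδ : γ < δ)
    (hcof : (2 : Cardinal.{0}) ^ κ₀ < δ.cof) (hX : Stat (XX κ δ γ) δ) : δ.cof ≤ γ.cof := by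
  have hkc : κ ≤ δ.cof := hkk.trans ((Cardinal.cantor κ₀).trans hcof).le
  have hunc : ℵ₀ < δ.cof := hκ.unc.trans_le hkc
  obtain ⟨A, hA, hA1, hA2⟩ := exists_atom hCV hNA hκ hkk hα hcof (dps_XX hSD hCF κ δ γ) hX
    (fun a ha => ha.1)
  have hCx : ∀ a ∈ A, ∃ x, SmallCof γ a x ∧ ∀ b,
      (∃ x, LeastOD δ (SmallCof γ a) x ∧ b ∈ st x) ↔ b ∈ st x := by
    intro a ha
    obtain ⟨-, -, x, hx, -⟩ := (hA1 a ha).1
    refine ⟨x, hx.1.2.2, fun b => ⟨?_, fun h => ⟨x, hx, h⟩⟩⟩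
    rintro ⟨y, hy, hb⟩
    rwa [hLE.1 _ _ _ _ hy hx] at hb
  refine bnd (C := fun a b => ∃ x, LeastOD δ (SmallCof γ a) x ∧ b ∈ st x) hME hunc hγ hδ hγδ hA
    (fun a ha => (hA1 a ha).2) hA2 (hSD γ δ)
    (fun a ha β hβ => ?_) (fun a ha => ?_)
  · obtain ⟨x, hx, hb⟩ := hCx a ha
    obtain ⟨b, hb1, hb2, hb3⟩ := hx.2.1 β hβ
    exact ⟨b, (hb b).2 hb1, hb2.le, hb3⟩
  · obtain ⟨x, hx, hb⟩ := hCx a ha
    have h1 : {b | ∃ x, LeastOD δ (SmallCof γ a) x ∧ b ∈ st x} = st x := Set.ext hb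
    rw [h1]
    exact hx.2.2

/-- regular cardinals of HOD of cofinality `ω` -/
theorem rg (hCV : StCVO) {κ κ₀ c : Cardinal.{0}} (hκ : StronglyCompact κ) (hkk : κ ≤ κ₀)
    (hα : ∃ α : Ordinal.{0}, IsSuccLimit α ∧ κ.ord ≤ α ∧ α ≤ κ₀.ord ∧ α.cof < κ ∧ ¬ HODSing α)
    (hc : c.IsRegular) (h2 : (2 : Cardinal.{0}) ^ κ₀ < c) {β : Ordinal.{0}} (hβ : β < c.ord) :
    ∃ γ, β < γ ∧ γ < c.ord ∧ HODReg γ ∧ γ.cof = ℵ₀ := by
  by_contra hcon
  push Not at hcon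
  have hlt : κ₀ < c := (Cardinal.cantor κ₀).trans h2
  have hkc : κ ≤ c := hkk.trans hlt.le
  have hunc : ℵ₀ < c := hκ.unc.trans_le hkc
  have hcof : ℵ₀ < c.ord.cof := by rw [hc.cof_ord]; exact hunc
  have hst : Stat {α | α.cof = ℵ₀ ∧ HODSing α} c.ord := by
    have h3 := Stat.inter_club hcof (stat_cof_omega hcof)
      (club_Ioi (isSuccLimit_of_cof hcof) hβ)
    refine h3.mono ?_
    rintro a ⟨ha1, ha2⟩ hac
    have ha1' : a.cof = ℵ₀ := ha1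
    have ha2' : β < a := ha2
    refine ⟨ha1', ?_⟩
    by_contra h4
    refine hcon a ha2' hac ⟨?_, h4⟩ ha1'
    rw [← one_lt_cof_iff, ha1']
    exact one_lt_aleph0
  have hκ₀ : (0 : Ordinal.{0}) < κ₀.ord := by
    rw [pos_iff_ne_zero]
    intro h
    have h5 : κ₀ = 0 := ord_eq_zero.1 h
    rw [h5] at hkk
    exact absurd (hκ.unc.trans_le hkk) (not_lt.2 zero_le)
  obtain ⟨S, hS1, hS2, hS3, hS4, hS5⟩ := hodSplits hc hunc hst κ₀.ord hκ₀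
    (Cardinal.ord_le_ord.2 hlt.le)
  obtain ⟨α, h6, h7, h8, h9, h10⟩ := hα
  refine h10 (hCV κ c.ord hκ (by rw [hc.cof_ord]; exact hkc) α κ₀.ord h6 h7 h9 h8 S
    (odRel_of_hod hS5) hS1 (fun ξ hξ a ha => ?_) hS4)
  rw [(hS2 ξ hξ a ha).2]
  exact hκ.unc

theorem OtpLt.mono' {S : Set Ordinal.{0}} {τ τ' : Ordinal.{0}} (h : OtpLt S τ) (h' : τ ≤ τ') :
    OtpLt S τ' := by
  obtain ⟨ζ, hζ, g, hg⟩ := h
  exact ⟨ζ, hζ.trans_le h', g, hg⟩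

/-- the case where `lam` is regular in HOD -/
theorem caseReg (hRF : StRF) (hCV : StCVO) (hNA : StNAO) (hSD : StSD) (hME : StME)
    (hLE : StLE) (hCF : StCF)
    {κ κ₀ : Cardinal.{0}} (hκ : StronglyCompact κ) (hkk : κ ≤ κ₀)
    (hα : ∃ α : Ordinal.{0}, IsSuccLimit α ∧ κ.ord ≤ α ∧ α ≤ κ₀.ord ∧ α.cof < κ ∧ ¬ HODSing α)
    {lam δ : Ordinal.{0}} (hl : HODReg lam) (hδ : HODNext lam δ)
    (hcof : (2 : Cardinal.{0}) ^ κ₀ < δ.cof) : δ.cof ≤ lam.cof := by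
  have hkc : κ ≤ δ.cof := hkk.trans ((Cardinal.cantor κ₀).trans hcof).le
  have hunc : ℵ₀ < δ.cof := hκ.unc.trans_le hkc
  have hmem : ∀ a, ℵ₀ ≤ a.cof → a.cof < κ → a.cof ≠ lam.cof → a < δ → a ∈ XX κ δ lam := by
    intro a h1 h2 h3 h4
    have hlim : IsSuccLimit a := Ordinal.one_lt_cof_iff.1 (Cardinal.one_lt_aleph0.trans_le h1)
    obtain ⟨γ, h5, h6, h7, h8⟩ := exg a hlim
    refine mem_XX hLE h2 (pos_iff_ne_zero.2 (Ordinal.isSuccLimit_iff.1 hlim).1)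
      (h8 lam δ h4 (lt_of_le_of_ne (not_lt.1 fun h => ?_) ?_))
    · exact hδ.2.2 γ h (h5.trans_lt h4) h6
    · rintro rfl
      exact h3 h7
  refine key hCV hNA hSD hME hLE hCF hκ hkk hα hl hδ.2.1 hδ.1 hcof ?_
  by_cases hc : lam.cof = ℵ₀
  · have hs : Stat {a | ℵ₀ < a.cof ∧ a.cof < κ} δ := by
      refine (hRF κ δ hκ hkc Unit (by simpa using Cardinal.one_lt_aleph0.trans hκ.unc)
        (fun _ => {a | a.cof = ℵ₀}) (fun _ => stat_cof_omega hunc) (fun _ a ha => by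
          rw [Set.mem_ofPred_eq] at ha; rw [ha]; exact hκ.unc)).mono fun a ha _ =>
            ⟨ha.1, ha.2.1⟩
    refine hs.mono fun a ha haδ => hmem a ha.1.le ha.2 ?_ haδ
    rw [hc]
    exact ha.1.ne'
  · refine (stat_cof_omega hunc).mono fun a ha haδ => ?_
    have h1 : a.cof = ℵ₀ := ha
    refine hmem a h1.ge (by rw [h1]; exact hκ.unc) ?_ haδ
    rw [h1]
    exact fun h => hc h.symm

theorem next_le {c : Cardinal.{0}} (hc : ℵ₀ ≤ c) {δ : Ordinal.{0}} (hδ : HODNext c.ord δ) :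
    δ ≤ (succ c).ord :=
  not_lt.1 fun h => hδ.2.2 _ (Cardinal.ord_lt_ord.2 (Order.lt_succ c)) h
    (hodReg_of_regular (Cardinal.isRegular_succ hc))

/-- the case where `lam` is a limit cardinal, not regular in HOD -/
theorem caseSing (hCV : StCVO) (hNA : StNAO) (hSD : StSD) (hME : StME)
    (hLE : StLE) (hCF : StCF) (hPG : StPG)
    {κ κ₀ : Cardinal.{0}} (hκ : StronglyCompact κ) (hkk : κ ≤ κ₀)
    (hα : ∃ α : Ordinal.{0}, IsSuccLimit α ∧ κ.ord ≤ α ∧ α ≤ κ₀.ord ∧ α.cof < κ ∧ ¬ HODSing α)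
    {c : Cardinal.{0}} {δ : Ordinal.{0}} (hc : IsSuccLimit c) (hc0 : ℵ₀ ≤ c)
    (hl : ¬ HODReg c.ord) (hδ : HODNext c.ord δ)
    (hcof : succ ((2 : Cardinal.{0}) ^ κ₀) < δ.cof) : δ.cof ≤ c.ord.cof := by
  by_contra hcon
  push Not at hcon
  have hcof' : (2 : Cardinal.{0}) ^ κ₀ < δ.cof := (Order.lt_succ _).trans hcof
  have hkc : κ ≤ δ.cof := hkk.trans ((Cardinal.cantor κ₀).trans hcof').le
  have hunc : ℵ₀ < δ.cof := hκ.unc.trans_le hkc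
  have h2c : (2 : Cardinal.{0}) ^ κ₀ < c := by
    have h1 : δ.cof ≤ succ c := by
      refine (Ordinal.cof_le_card δ).trans ?_
      have h3 := Ordinal.card_le_card (next_le hc0 hδ)
      rwa [Cardinal.card_ord] at h3
    exact Order.succ_lt_succ_iff.1 (hcof.trans_le h1)
  obtain ⟨ι, z, hι, hz, hz'⟩ := cv_cofinal c.ord
  have hex : ∀ a, a.cof = ℵ₀ → a < δ → ∃ i, a ∈ XX κ δ (z i) := by
    intro a h1 h4
    have hlim : IsSuccLimit a := by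
      rw [← one_lt_cof_iff, h1]
      exact one_lt_aleph0
    obtain ⟨γ, h5, h6, h7, h8⟩ := exg a hlim
    have h9 : γ < c.ord := by
      refine lt_of_le_of_ne (not_lt.1 fun h => hδ.2.2 γ h (h5.trans_lt h4) h6) ?_
      rintro rfl
      exact hl h6
    obtain ⟨i, hi⟩ := hz' (succ γ) ((Cardinal.isSuccLimit_ord hc0).succ_lt h9)
    exact ⟨i, mem_XX hLE (by rw [h1]; exact hκ.unc)
      (pos_iff_ne_zero.2 (Ordinal.isSuccLimit_iff.1 hlim).1)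
      (h8 (z i) δ h4 ((lt_succ γ).trans_le hi))⟩
  classical
  have hne : Nonempty ι := by
    obtain ⟨i, -⟩ := hz' 0 (Cardinal.isSuccLimit_ord hc0).bot_lt
    exact ⟨i⟩
  let g : Ordinal.{0} → ι := fun a =>
    if h : ∃ i, a ∈ XX κ δ (z i) then h.choose else Classical.arbitrary ι
  obtain ⟨i, hi⟩ := hPG δ ι {a | a.cof = ℵ₀} g hunc (by rw [hι]; exact hcon)
    (stat_cof_omega hunc)
  have hi' : Stat {a | a.cof = ℵ₀ ∧ a ∈ XX κ δ (z i)} δ := by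
    refine hi.mono fun a ha haδ => ⟨ha.1, ?_⟩
    have h1 : ∃ j, a ∈ XX κ δ (z j) := hex a ha.1 haδ
    have h2 : g a = i := ha.2
    simp only [g] at h2
    rw [dif_pos h1] at h2
    rw [← h2]
    exact h1.choose_spec
  -- a regular cardinal of HOD of cofinality `ω` between `z i` and `c.ord`
  have hc1 : succ (max ((2 : Cardinal.{0}) ^ κ₀) (z i).card) < c :=
    hc.succ_lt (max_lt h2c (Cardinal.lt_ord.1 (hz i)))
  have hreg : (succ (max ((2 : Cardinal.{0}) ^ κ₀) (z i).card)).IsRegular := by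
    refine Cardinal.isRegular_succ ?_
    refine le_trans ?_ (le_max_left _ _)
    exact (hκ.unc.le.trans hkk).trans (Cardinal.cantor κ₀).le
  obtain ⟨γ, h1, h2, h3, h4⟩ := rg hCV hκ hkk hα hreg
    (lt_of_le_of_lt (le_max_left _ _) (Order.lt_succ _)) (β := z i)
    (Cardinal.lt_ord.2 (lt_of_le_of_lt (le_max_right _ _) (Order.lt_succ _)))
  have hγc : γ < c.ord := h2.trans (Cardinal.ord_lt_ord.2 hc1)
  have h5 : δ.cof ≤ γ.cof := by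
    refine key hCV hNA hSD hME hLE hCF hκ hkk hα h3 hδ.2.1 (hγc.trans hδ.1) hcof' ?_
    refine hi'.mono fun a ha haδ => ?_
    obtain ⟨ha1, -, b, x, hx, hb⟩ := ha
    have hlim : IsSuccLimit a := by
      rw [← one_lt_cof_iff, ha1]
      exact one_lt_aleph0
    refine mem_XX hLE (by rw [ha1]; exact hκ.unc)
      (pos_iff_ne_zero.2 (Ordinal.isSuccLimit_iff.1 hlim).1) ⟨x, hx.1.1, hx.1.2.1, ?_⟩
    obtain ⟨h6, h7, h8⟩ := hx.1.2.2
    exact ⟨h6, h7, OtpLt.mono' h8 h1.le⟩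
  rw [h4] at h5
  exact absurd hunc (not_lt.2 h5)

end Pool.Agent.Helper76.HK
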