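import Pool.Agent.Helper76.HK.Bnd
import Pool.Agent.Helper73.HM.Top
import Pool.Agent.Helper73.HU.NAO
import Pool.Agent.Helper68.HU.NMap
import Pool.Agent.Helper68.HU.TR
import Pool.Agent.Helper68.HU.FO
import Pool.Agent.Helper68.HU.RF
import Pool.Agent.Helper31.HU.EB
import Pool.Agent.Helper8.HU.BD
import Pool.Agent.Helper62.HU.WN
import Pool.Agent.Helper63.HU.SD
import Pool.Agent.Helper86.HU.ME

/-! # HK: the theorem -/

namespace Pool.Agent.Helper76.HK

open Ordinal Cardinal ZFSet Order Pool.Agent.Helper73.HODC Pool.Agent.Helper73.HE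
  Pool.Agent.Helper73.HM Pool.Agent.Helper73.HU

theorem local_cof (κ κ₀ : Cardinal.{0}) (hκ : StronglyCompact κ) (hkk : κ ≤ κ₀)
    (hα : ∃ α : Ordinal.{0}, IsSuccLimit α ∧ κ.ord ≤ α ∧ α ≤ κ₀.ord ∧ α.cof < κ ∧ ¬ HODSing α) :
    ∀ lam δ : Ordinal.{0}, (HODReg lam ∨ ∃ c : Cardinal.{0}, ℵ₀ ≤ c ∧ lam = c.ord) →
      HODNext lam δ → δ.cof ≤ max (succ ((2 : Cardinal.{0}) ^ κ₀)) lam.cof := by
  have hRefl : StRefl := refl_of Helper32.HM.ra Helper38.HM.rc Helper11.HM.RS.rs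
  have hTC : StTC := Helper77.HM.TC.tc
  have hTS : StTS := Helper12.HM.ts hTC
  have hTD : StTD := td_of hTC hTS
  have hOZ : StOZ := Helper30.HM.oz hTD
  have hHP : StHP := hp_of hTD hOZ
  have hLE : StLE := Helper14.HM.le hTC hOZ
  have hLS : StLS := Helper62.HM.LS.ls hTD
  have hLD : StLD := ld_of hHP hLS
  have hNE : StNE := ne hLE
  have hND : StND := nd re hLD
  have hCF : StCF := Helper14.HM.cf
  have hNMap : StNMap := Helper68.HU.nmap
  have hTR : StTR := Helper68.HU.tr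
  have hRF : StRF := Helper68.HU.rf hRefl hNMap hTR
  have hFO : StFO := Helper68.HU.fo hNMap hTR
  have hCV : StCVO := cvo hRF Helper66.HM.dj
  have hNSO : StNSO := nso hLE hNE hND
  have hNA : StNAO := nao hLE hNE hND hNSO
  have hSD : StSD := Helper63.HU.sd hLD
  have hEB : StEB := Helper31.HU.EB.eb
  have hBD : StBD := Helper8.HU.bd hEB
  have hWN : StWN := Helper62.HU.WN.wn hFO
  have hME : StME := Helper86.HU.ME.me hWN hEB hBD
  intro lam δ hl hδ
  by_cases hcof : δ.cof ≤ succ ((2 : Cardinal.{0}) ^ κ₀)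
  · exact hcof.trans (le_max_left _ _)
  push Not at hcof
  have hcof' : (2 : Cardinal.{0}) ^ κ₀ < δ.cof := (Order.lt_succ _).trans hcof
  refine le_trans ?_ (le_max_right _ _)
  by_cases hr : HODReg lam
  · exact caseReg hRF hCV hNA hSD hME hLE hCF hκ hkk hα hr hδ hcof'
  rcases hl with hl | ⟨c, hc, rfl⟩
  · exact absurd hl hr
  have hsing : ¬ c.IsRegular := fun h => hr (hodReg_of_regular h)
  have hlim : IsSuccLimit c := by
    by_contra h
    have h0 : c ≠ 0 := by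
      rintro rfl
      exact absurd hc (not_le.2 Cardinal.aleph0_pos)
    have h1 : ¬ IsSuccPrelimit c := fun h2 => h ⟨by rwa [isMin_iff_eq_bot], h2⟩
    rw [Order.not_isSuccPrelimit_iff_succ_eq] at h1
    obtain ⟨d, -, hd⟩ := h1
    have hd0 : ℵ₀ ≤ d := by
      by_contra h3
      push Not at h3
      have h4 : succ d < ℵ₀ := Cardinal.isSuccLimit_aleph0.succ_lt h3
      rw [hd] at h4
      exact absurd hc (not_le.2 h4)
    exact hsing (hd ▸ Cardinal.isRegular_succ hd0)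
  exact caseSing hCV hNA hSD hME hLE hCF pg hκ hkk hα hlim hc hr hδ hcof

theorem main (κ : Cardinal.{0}) (hκ : StronglyCompact κ) :
    (HODHypothesis ∧
      ∀ α : Ordinal.{0}, IsSuccLimit α → κ.ord ≤ α → α.cof < κ → HODSing α) ∨
    (∃ θ : Cardinal.{0},
      (∀ c : Cardinal.{0}, c.IsRegular → θ < c → OmegaStronglyMeasurable c.ord) ∧
      ∀ lam δ : Ordinal.{0}, (HODReg lam ∨ ∃ c : Cardinal.{0}, ℵ₀ ≤ c ∧ lam = c.ord) →
        HODNext lam δ → δ.cof ≤ max θ lam.cof) := by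
  by_cases hall : ∀ α : Ordinal.{0}, IsSuccLimit α → κ.ord ≤ α → α.cof < κ → HODSing α
  · exact Or.inl ⟨Helper96.HM.hy κ hκ.reg hκ.unc hall, hall⟩
  right
  push Not at hall
  obtain ⟨α, hα, h3, h5, h6⟩ := hall
  set κ₀ : Cardinal.{0} := succ (max κ α.card) with hκ₀
  have h4 : α ≤ κ₀.ord := by
    have h7 : α.card < κ₀ := lt_of_le_of_lt (le_max_right _ _) (Order.lt_succ _)
    exact (Cardinal.lt_ord.2 h7).le
  have hkk : κ ≤ κ₀ := (le_max_left _ _).trans (Order.le_succ _)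
  refine ⟨succ ((2 : Cardinal.{0}) ^ κ₀), fun c hc hθ => ?_,
    local_cof κ κ₀ hκ hkk ⟨α, hα, h3, h4, h5, h6⟩⟩
  rcases main_local κ κ₀ c hκ hkk hc ((Order.lt_succ _).trans hθ) with h | h
  · exact absurd (h α hα h3 h4 h5) h6
  · exact h.1

end Pool.Agent.Helper76.HK
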